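import Mathlib

set_option autoImplicit false

/-!
# The `d`-parallelogram condition does not imply Condition H
-/

namespace Pool.Agent.Results.MP_e13ffb_co.ParallelogramFails

open Finset

/-- An integer vector as a real vector. -/
def toReal {d : ℕ} (y : Fin d → ℤ) : Fin d → ℝ := fun i => (y i : ℝ)

/-- Every `x` in the convex hull of `S` lies in the convex hull of `S ∩ N(x)`, where
`N(x)` is the set of the integer points `y` with `|x i - y i| < 1` for all `i`. -/
def IntegrallyConvex {d : ℕ} (S : Set (Fin d → ℤ)) : Prop :=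
  ∀ x ∈ convexHull ℝ (toReal '' S), x ∈ convexHull ℝ (toReal '' {y ∈ S | ∀ i, |x i - y i| < 1})

/-- The `k`-parallelogram condition. -/
def ParallelogramCondition {d : ℕ} (k : ℕ) (A B : Set (Fin d → ℤ)) : Prop :=
  ∀ k' : ℕ, 1 ≤ k' → k' ≤ k → ∀ a b : Fin k' → (Fin d → ℤ),
    (∀ i, a i ∈ A) → (∀ i, b i ∈ B) → ∑ i, a i ≠ ∑ i, b i

/-- The affine subspace `P` of `L` separates `A` and `B` in `L`: it is cut out of `L` by an affine
equation `f = c`, every point of `A ∪ B` in `L` with `f > c` is in `A`, and every point of `A ∪ B`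
in `L` with `f < c` is in `B`. (When `dim P = dim L - 1` the sets `{x ∈ L | f x > c}` and
`{x ∈ L | f x < c}` are the two connected components of `L ∖ P`.) -/
def Separates {d : ℕ} (P L : AffineSubspace ℝ (Fin d → ℝ)) (A B : Set (Fin d → ℤ)) : Prop :=
  ∃ (f : (Fin d → ℝ) →ₗ[ℝ] ℝ) (c : ℝ), (∀ x, x ∈ P ↔ x ∈ L ∧ f x = c) ∧
    (∀ y ∈ A ∪ B, toReal y ∈ L → c < f (toReal y) → y ∈ A) ∧
    (∀ y ∈ A ∪ B, toReal y ∈ L → f (toReal y) < c → y ∈ B)

/-- Condition H: a flag `H k < H (k+1) < ... < H d = ℝᵈ` of nonempty affine subspaces with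
`dim H i = i`, such that the points of `A ∪ B` in `H k` are all in `A` or all in `B`, and
`H i` separates `A` and `B` in `H (i+1)` for `k ≤ i < d`. -/
def ConditionH {d : ℕ} (A B : Set (Fin d → ℤ)) : Prop :=
  ∃ (k : ℕ) (H : ℕ → AffineSubspace ℝ (Fin d → ℝ)), k ≤ d ∧ H d = ⊤ ∧
    (∀ i, k ≤ i → i ≤ d → (H i : Set (Fin d → ℝ)).Nonempty ∧
      Module.finrank ℝ (H i).direction = i) ∧
    (∀ i, k ≤ i → i < d → H i ≤ H (i + 1)) ∧
    ((∀ y ∈ A ∪ B, toReal y ∈ H k → y ∈ A) ∨ (∀ y ∈ A ∪ B, toReal y ∈ H k → y ∈ B)) ∧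
    (∀ i, k ≤ i → i < d → Separates (H i) (H (i + 1)) A B)

/-- Every set of `0/1` vectors is integrally convex. -/
lemma integrallyConvex_of_zero_one {d : ℕ} (S : Set (Fin d → ℤ))
    (hS : ∀ y ∈ S, ∀ i, y i = 0 ∨ y i = 1) : IntegrallyConvex S := by
  classical
  intro x hx
  rw [_root_.convexHull_eq] at hx
  obtain ⟨ι, t, w, z, hw0, hw1, hz, hxe⟩ := hx
  have hx2 : ∀ j, x j = ∑ i ∈ t, w i * z i j := by
    intro j
    rw [← hxe, Finset.centerMass_eq_of_sum_1 _ _ hw1]
    simp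
  rw [← Finset.centerMass_filter_ne_zero] at hxe
  rw [← hxe]
  apply Finset.centerMass_mem_convexHull
  · intro i hi
    exact hw0 i (Finset.mem_filter.1 hi).1
  · rw [Finset.sum_filter_ne_zero, hw1]
    norm_num
  · intro i hi
    obtain ⟨hit, hwi⟩ := Finset.mem_filter.1 hi
    obtain ⟨y, hy, hyz⟩ := hz i hit
    refine ⟨y, ⟨hy, ?_⟩, hyz⟩
    intro j
    have hwi' : 0 < w i := lt_of_le_of_ne (hw0 i hit) (Ne.symm hwi)
    have hz01 : ∀ k ∈ t, 0 ≤ z k j ∧ z k j ≤ 1 := by
      intro k hk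
      obtain ⟨y', hy', e⟩ := hz k hk
      rw [← e]
      rcases hS y' hy' j with h | h <;> simp [toReal, h]
    have e0 : x j = ∑ k ∈ t, w k * z k j := hx2 j
    rw [hxe]
    rcases hS y hy j with h | h
    · have hzi : z i j = 0 := by rw [← hyz]; simp [toReal, h]
      have h1 : x j ≤ 1 - w i := by
        rw [e0, ← hw1, ← Finset.add_sum_erase t _ hit, ← Finset.add_sum_erase t w hit, hzi]
        have : ∑ k ∈ t.erase i, w k * z k j ≤ ∑ k ∈ t.erase i, w k := by
          apply Finset.sum_le_sum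
          intro k hk
          have hk' := Finset.mem_of_mem_erase hk
          have := hw0 k hk'
          have := (hz01 k hk').2
          nlinarith
        linarith
      have h2 : 0 ≤ x j := by
        rw [e0]
        exact Finset.sum_nonneg fun k hk => mul_nonneg (hw0 k hk) (hz01 k hk).1
      rw [h]
      rw [abs_lt]
      constructor <;> push_cast <;> linarith
    · have hzi : z i j = 1 := by rw [← hyz]; simp [toReal, h]
      have h1 : x j ≤ 1 := by
        rw [e0, ← hw1]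
        apply Finset.sum_le_sum
        intro k hk
        have := hw0 k hk
        have := (hz01 k hk).2
        nlinarith
      have h2 : w i ≤ x j := by
        rw [e0, ← Finset.add_sum_erase t _ hit, hzi]
        have : 0 ≤ ∑ k ∈ t.erase i, w k * z k j :=
          Finset.sum_nonneg fun k hk => mul_nonneg (hw0 k (Finset.mem_of_mem_erase hk))
            (hz01 k (Finset.mem_of_mem_erase hk)).1
        linarith
      rw [h]
      rw [abs_lt]
      constructor <;> push_cast <;> linarith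

/-- the vector `e₀ + e₁` -/
def e01 (d : ℕ) : Fin d → ℤ := fun i => if i.val < 2 then 1 else 0

/-- the vector `(1, ..., 1) - e_t` -/
def cc (d t : ℕ) : Fin d → ℤ := fun i => if i.val = t then 0 else 1

/-- the set `A` -/
def A (d : ℕ) : Set (Fin d → ℤ) :=
  {y | y = e01 d ∨ ∃ j : Fin d, 2 ≤ j.val ∧ y = Pi.single j 1}

/-- the set `B` -/
def B (d : ℕ) : Set (Fin d → ℤ) := {0, cc d 0, cc d 1}

lemma A_prop {d : ℕ} (hd : 4 ≤ d) {y : Fin d → ℤ} (hy : y ∈ A d) :
    y ⟨0, by omega⟩ = y ⟨1, by omega⟩ ∧ 0 ≤ y ⟨0, by omega⟩ ∧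
    y ⟨0, by omega⟩ + ∑ j ∈ univ.filter (fun j : Fin d => 2 ≤ j.val), y j = 1 := by
  rcases hy with rfl | ⟨j, hj, rfl⟩
  · refine ⟨by simp [e01], by simp [e01], ?_⟩
    rw [Finset.sum_eq_zero]
    · simp [e01]
    · intro k hk
      have := (Finset.mem_filter.1 hk).2
      simp [e01]
      omega
  · have h0 : (Pi.single j 1 : Fin d → ℤ) ⟨0, by omega⟩ = 0 := by
      rw [Pi.single_apply, if_neg]
      rintro h
      rw [← h] at hj
      simp at hj
    have h1 : (Pi.single j 1 : Fin d → ℤ) ⟨1, by omega⟩ = 0 := by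
      rw [Pi.single_apply, if_neg]
      rintro h
      rw [← h] at hj
      simp at hj
    refine ⟨by rw [h0, h1], by rw [h0], ?_⟩
    rw [h0, Finset.sum_eq_single_of_mem j (by simp [hj])]
    · simp
    · intro k _ hk
      simp [hk]

lemma B_prop {d : ℕ} (hd : 4 ≤ d) {y : Fin d → ℤ} (hy : y ∈ B d) (j : Fin d) (hj : 2 ≤ j.val) :
    y j = y ⟨0, by omega⟩ + y ⟨1, by omega⟩ := by
  rcases hy with rfl | rfl | rfl
  · simp
  · simp [cc]
    omega
  · simp [cc]
    omega

lemma card_filter {d : ℕ} (hd : 4 ≤ d) :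
    (univ.filter (fun j : Fin d => 2 ≤ j.val)).card = d - 2 := by
  have : univ.filter (fun j : Fin d => 2 ≤ j.val) = Finset.Ici ⟨2, by omega⟩ := by
    ext j
    simp [Fin.le_def]
  rw [this, Fin.card_Ici]

lemma disj {d : ℕ} (hd : 4 ≤ d) : ∀ y ∈ A d, y ∉ B d := by
  intro y hy hy'
  have h1 := A_prop hd hy
  have hp0 : 0 < d := by omega
  have hp1 : 1 < d := by omega
  have h2 : ∀ j : Fin d, 2 ≤ j.val → y j = y ⟨0, hp0⟩ + y ⟨1, hp1⟩ :=
    fun j hj => B_prop hd hy' j hj
  obtain ⟨h3, h4, h5⟩ := h1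
  rw [Finset.sum_congr rfl fun j hj => h2 j (Finset.mem_filter.1 hj).2, Finset.sum_const,
    card_filter hd, nsmul_eq_mul] at h5
  rw [← h3] at h5
  have h6 : ((d - 2 : ℕ) : ℤ) = (d : ℤ) - 2 := by omega
  rw [h6] at h5
  have h7 : y ⟨0, by omega⟩ * (2 * (d : ℤ) - 3) = 1 := by linarith
  have h8 := Int.eq_one_or_neg_one_of_mul_eq_one' h7
  omega

lemma parallelogram {d : ℕ} (hd : 4 ≤ d) : ParallelogramCondition (2 * d - 4) (A d) (B d) := by
  intro k' hk1 hk4 a b ha hb hab
  have e : ∀ j, ∑ i, a i j = ∑ i, b i j := by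
    intro j
    have := congrFun hab j
    simpa using this
  set s : Fin d → ℤ := fun j => ∑ i, a i j with hs
  have h1 : s ⟨0, by omega⟩ = s ⟨1, by omega⟩ :=
    Finset.sum_congr rfl fun i _ => (A_prop hd (ha i)).1
  have h2 : s ⟨0, by omega⟩ + ∑ j ∈ univ.filter (fun j : Fin d => 2 ≤ j.val), s j = k' := by
    simp only [hs]
    rw [Finset.sum_comm, ← Finset.sum_add_distrib,
      Finset.sum_congr rfl fun i _ => (A_prop hd (ha i)).2.2]
    simp
  have h3 : ∀ j : Fin d, 2 ≤ j.val → s j = s ⟨0, by omega⟩ + s ⟨1, by omega⟩ := by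
    intro j hj
    simp only [hs, e]
    rw [← Finset.sum_add_distrib]
    exact Finset.sum_congr rfl fun i _ => B_prop hd (hb i) j hj
  have h5 : 0 ≤ s ⟨0, by omega⟩ := Finset.sum_nonneg fun i _ => (A_prop hd (ha i)).2.1
  rw [Finset.sum_congr rfl fun j hj => h3 j (Finset.mem_filter.1 hj).2, Finset.sum_const,
    card_filter hd, nsmul_eq_mul, ← h1] at h2
  have h6 : ((d - 2 : ℕ) : ℤ) = (d : ℤ) - 2 := by omega
  rw [h6] at h2
  have h7 : s ⟨0, by omega⟩ * (2 * (d : ℤ) - 3) = k' := by linarith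
  rcases h5.eq_or_lt with h8 | h8
  · rw [← h8] at h7
    omega
  · have h9 : 1 * (2 * (d : ℤ) - 3) ≤ s ⟨0, by omega⟩ * (2 * (d : ℤ) - 3) :=
      mul_le_mul_of_nonneg_right (by omega) (by omega)
    omega

lemma dependence {d : ℕ} :
    (2 : ℝ) • ∑ j ∈ univ.filter (fun j : Fin d => 2 ≤ j.val), toReal (Pi.single j 1) +
      toReal (e01 d) = toReal (cc d 0) + toReal (cc d 1) := by
  ext i
  simp only [Pi.add_apply, Pi.smul_apply, Finset.sum_apply, toReal, smul_eq_mul]
  have h1 : ∀ j : Fin d, (((Pi.single j 1 : Fin d → ℤ) i : ℤ) : ℝ) = if i = j then 1 else 0 := by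
    intro j
    rw [Pi.single_apply]
    split_ifs <;> simp
  rw [Finset.sum_congr rfl fun j _ => h1 j, Finset.sum_ite_eq]
  simp only [Finset.mem_filter, Finset.mem_univ, true_and, e01, cc]
  by_cases h : 2 ≤ i.val
  · have a0 : i.val ≠ 0 := by omega
    have a1 : i.val ≠ 1 := by omega
    have a2 : ¬ i.val < 2 := by omega
    simp [h, a0, a1, a2]
    norm_num
  · have a2 : i.val < 2 := by omega
    have : i.val = 0 ∨ i.val = 1 := by omega
    rcases this with h' | h' <;> simp [h']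

lemma step {d : ℕ} (hd : 4 ≤ d) (P L : AffineSubspace ℝ (Fin d → ℝ))
    (h : Separates P L (A d) (B d)) (hL : ∀ y ∈ A d ∪ B d, toReal y ∈ L) :
    ∀ y ∈ A d ∪ B d, toReal y ∈ P := by
  obtain ⟨f, c, hP, h1, h2⟩ := h
  have hdisj := disj hd
  have hA : ∀ y ∈ A d, c ≤ f (toReal y) := by
    intro y hy
    by_contra h
    exact hdisj y hy (h2 y (Or.inl hy) (hL y (Or.inl hy)) (not_le.1 h))
  have hB : ∀ y ∈ B d, f (toReal y) ≤ c := by
    intro y hy
    by_contra h
    exact hdisj y (h1 y (Or.inr hy) (hL y (Or.inr hy)) (not_le.1 h)) hy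
  have a1 := hA (e01 d) (Or.inl rfl)
  have a2 : ∀ j ∈ univ.filter (fun j : Fin d => 2 ≤ j.val),
      c ≤ f (toReal (Pi.single j 1)) :=
    fun j hj => hA _ (Or.inr ⟨j, (Finset.mem_filter.1 hj).2, rfl⟩)
  have b1 := hB 0 (by simp [B])
  have b2 := hB (cc d 0) (by simp [B])
  have b3 := hB (cc d 1) (by simp [B])
  have hf := congrArg f dependence
  simp only [map_add, map_smul, smul_eq_mul, map_sum] at hf
  have hz : f (toReal (0 : Fin d → ℤ)) = 0 := by
    have : toReal (0 : Fin d → ℤ) = 0 := by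
      ext i
      simp [toReal]
    rw [this, map_zero]
  rw [hz] at b1
  have h3 : ((d : ℝ) - 2) * c ≤ ∑ j ∈ univ.filter (fun j : Fin d => 2 ≤ j.val),
      f (toReal (Pi.single j 1)) := by
    have := Finset.card_nsmul_le_sum _ _ c a2
    rw [card_filter hd, nsmul_eq_mul] at this
    have h6 : ((d - 2 : ℕ) : ℝ) = (d : ℝ) - 2 := by
      rw [Nat.cast_sub (by omega)]
      norm_num
    rwa [h6] at this
  have hd' : (4 : ℝ) ≤ d := by exact_mod_cast hd
  have hc : c = 0 := by
    by_contra hne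
    have hpos : 0 < c := lt_of_le_of_ne b1 (Ne.symm hne)
    nlinarith
  subst hc
  have h4 : ∑ j ∈ univ.filter (fun j : Fin d => 2 ≤ j.val), f (toReal (Pi.single j 1)) = 0 := by
    have := Finset.sum_nonneg a2
    linarith
  have h5 := (Finset.sum_eq_zero_iff_of_nonneg a2).1 h4
  intro y hy
  rw [hP]
  refine ⟨hL y hy, ?_⟩
  rcases hy with (rfl | ⟨j, hj, rfl⟩) | (rfl | rfl | rfl)
  · linarith
  · exact h5 j (by simp [hj])
  · exact hz
  · linarith
  · linarith

lemma not_conditionH {d : ℕ} (hd4 : 4 ≤ d) : ¬ ConditionH (A d) (B d) := by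
  rintro ⟨k, H, hk, hd, -, -, hi, hii⟩
  have key : ∀ m, m ≤ d - k → ∀ y ∈ A d ∪ B d, toReal y ∈ H (d - m) := by
    intro m
    induction m with
    | zero =>
      intro _ y _
      rw [Nat.sub_zero, hd]
      trivial
    | succ m ih =>
      intro hm
      have h1 := ih (by omega)
      have h2 := hii (d - (m + 1)) (by omega) (by omega)
      have e : d - (m + 1) + 1 = d - m := by omega
      rw [e] at h2
      exact step hd4 _ _ h2 h1
  have hall := key (d - k) le_rfl
  have e : d - (d - k) = k := by omega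
  rw [e] at hall
  have hB : (0 : Fin d → ℤ) ∈ B d := by simp [B]
  have hA : e01 d ∈ A d := Or.inl rfl
  rcases hi with h | h
  · exact disj hd4 _ (h 0 (Or.inr hB) (hall _ (Or.inr hB))) hB
  · exact disj hd4 _ hA (h _ (Or.inl hA) (hall _ (Or.inl hA)))

/-- For every `d ≥ 4` there are nonempty disjoint finite sets `A, B ⊆ ℤᵈ` with `A ∪ B`
integrally convex that satisfy the `(2d-4)`-parallelogram condition (note that `2d-4 ≥ d`), but
not Condition H. -/
theorem result (d : ℕ) (hd : 4 ≤ d) : ∃ A B : Set (Fin d → ℤ), A.Finite ∧ B.Finite ∧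
    A.Nonempty ∧ B.Nonempty ∧ Disjoint A B ∧ IntegrallyConvex (A ∪ B) ∧
    ParallelogramCondition (2 * d - 4) A B ∧ ¬ ConditionH A B := by
  refine ⟨A d, B d, ?_, by unfold B; exact Set.toFinite _, ⟨e01 d, Or.inl rfl⟩,
    ⟨0, Or.inl rfl⟩, ?_, ?_, parallelogram hd, not_conditionH hd⟩
  · have : A d ⊆ insert (e01 d) (Set.range fun j : Fin d => (Pi.single j 1 : Fin d → ℤ)) := by
      rintro y (rfl | ⟨j, -, rfl⟩)
      · exact Or.inl rfl
      · exact Or.inr ⟨j, rfl⟩
    exact (Set.toFinite _).subset this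
  · rw [Set.disjoint_left]
    exact disj hd
  · apply integrallyConvex_of_zero_one
    intro y hy i
    rcases hy with (rfl | ⟨j, hj, rfl⟩) | (rfl | rfl | rfl)
    · simp only [e01]; split_ifs <;> simp
    · rw [Pi.single_apply]; split_ifs <;> simp
    · simp
    · simp only [cc]; split_ifs <;> simp
    · simp only [cc]; split_ifs <;> simp

end Pool.Agent.Results.MP_e13ffb_co.ParallelogramFails
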